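import Mathlib

/-!
# Large sets without solutions of `x + 3y = 2z + 2w`: digit constructions

* `Good f` : the family `f : ι → M` has only trivial solutions.
* `good_digits` : lifting a family which is good modulo `q` to integer vectors.
* `good_flatten` : from integer vectors to integers.
* `good_type` : type classes of words over an alphabet with role potentials.
-/

namespace Pool.Agent.H247R2.RZ

open Finset

/-- Only trivial solutions of `x + 3y = 2z + 2w`. -/
def Good {ι M : Type*} [AddCommGroup M] (f : ι → M) : Prop :=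
  ∀ x y z w : ι, f x + 3 • f y = 2 • f z + 2 • f w → x = y ∧ x = z ∧ x = w

/-- Only trivial solutions modulo `q`, coordinatewise. -/
def GoodMod {ι κ : Type*} (q : ℤ) (f : ι → κ → ℤ) : Prop :=
  ∀ x y z w : ι, (∀ i, q ∣ f x i + 3 * f y i - 2 * f z i - 2 * f w i) → x = y ∧ x = z ∧ x = w

/-- the word map: digits in base `q`. -/
def dig {ι κ : Type*} (q : ℤ) (f : ι → κ → ℤ) : (t : ℕ) → (Fin t → ι) → κ → ℤ
  | 0, _ => fun _ => 0
  | t + 1, X => fun i => f (X 0) i + q * dig q f t (fun j => X j.succ) i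

theorem good_dig {ι κ : Type*} {q : ℤ} (hq : q ≠ 0) {f : ι → κ → ℤ} (h : GoodMod q f) :
    ∀ t : ℕ, Good (dig q f t) := by
  intro t
  induction t with
  | zero =>
    intro x y z w _
    refine ⟨?_, ?_, ?_⟩ <;> exact Subsingleton.elim _ _
  | succ t ih =>
    intro x y z w hxy
    have key : ∀ i, (f (x 0) i + 3 * f (y 0) i - 2 * f (z 0) i - 2 * f (w 0) i)
        + q * (dig q f t (fun j => x j.succ) i + 3 * dig q f t (fun j => y j.succ) i
          - 2 * dig q f t (fun j => z j.succ) i - 2 * dig q f t (fun j => w j.succ) i) = 0 := by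
      intro i
      have := congrFun hxy i
      simp only [dig, Pi.add_apply, Pi.smul_apply] at this
      simp only [nsmul_eq_mul, Nat.cast_ofNat] at this
      linarith
    have h0 := h (x 0) (y 0) (z 0) (w 0) (by
      intro i
      have := key i
      refine ⟨-(dig q f t (fun j => x j.succ) i + 3 * dig q f t (fun j => y j.succ) i
          - 2 * dig q f t (fun j => z j.succ) i - 2 * dig q f t (fun j => w j.succ) i), ?_⟩
      linarith)
    obtain ⟨hy, hz, hw⟩ := h0
    have hs := ih (fun j => x j.succ) (fun j => y j.succ) (fun j => z j.succ)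
      (fun j => w j.succ) (by
        funext i
        have := key i
        rw [← hy, ← hz, ← hw] at this
        have h1 : q * (dig q f t (fun j => x j.succ) i + 3 * dig q f t (fun j => y j.succ) i
          - 2 * dig q f t (fun j => z j.succ) i - 2 * dig q f t (fun j => w j.succ) i) = 0 := by
          linarith
        have h2 := (mul_eq_zero.mp h1).resolve_left hq
        simp only [Pi.add_apply, Pi.smul_apply]
        simp only [nsmul_eq_mul, Nat.cast_ofNat]
        linarith)
    obtain ⟨sy, sz, sw⟩ := hs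
    refine ⟨?_, ?_, ?_⟩
    · funext j
      refine Fin.cases hy (fun j => congrFun sy j) j
    · funext j
      refine Fin.cases hz (fun j => congrFun sz j) j
    · funext j
      refine Fin.cases hw (fun j => congrFun sw j) j

theorem dig_bound {ι κ : Type*} {q : ℤ} (hq : 0 < q) {f : ι → κ → ℤ}
    (h : ∀ x i, 0 ≤ f x i ∧ f x i < q) :
    ∀ (t : ℕ) (X : Fin t → ι) (i : κ), 0 ≤ dig q f t X i ∧ dig q f t X i < q ^ t := by
  intro t
  induction t with
  | zero => intro X i; simp [dig]
  | succ t ih =>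
    intro X i
    obtain ⟨h1, h2⟩ := h (X 0) i
    obtain ⟨h3, h4⟩ := ih (fun j => X j.succ) i
    simp only [dig]
    refine ⟨by positivity, ?_⟩
    have : dig q f t (fun j => X j.succ) i ≤ q ^ t - 1 := by linarith
    calc f (X 0) i + q * dig q f t (fun j => X j.succ) i
        ≤ (q - 1) + q * (q ^ t - 1) := by
          have := mul_le_mul_of_nonneg_left this hq.le
          linarith
      _ < q ^ (t + 1) := by rw [pow_succ]; nlinarith

/-- Base `Q` flattening of integer vectors. -/
def flat (Q : ℤ) : (n : ℕ) → (Fin n → ℤ) → ℤ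
  | 0, _ => 0
  | n + 1, v => v 0 + Q * flat Q n (fun j => v j.succ)

theorem flat_comb (Q : ℤ) : ∀ (n : ℕ) (a b c d : Fin n → ℤ),
    flat Q n a + 3 * flat Q n b - 2 * flat Q n c - 2 * flat Q n d
      = flat Q n (fun i => a i + 3 * b i - 2 * c i - 2 * d i) := by
  intro n
  induction n with
  | zero => intro a b c d; simp [flat]
  | succ n ih =>
    intro a b c d
    simp only [flat]
    rw [← ih]
    ring

theorem flat_zero {Q : ℤ} (hQ : 0 < Q) : ∀ (n : ℕ) (e : Fin n → ℤ), (∀ i, |e i| < Q) →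
    flat Q n e = 0 → ∀ i, e i = 0 := by
  intro n
  induction n with
  | zero => intro e _ _ i; exact i.elim0
  | succ n ih =>
    intro e he h0
    simp only [flat] at h0
    have hd : Q ∣ e 0 := ⟨-flat Q n (fun j => e j.succ), by linarith⟩
    have h1 : e 0 = 0 := Int.eq_zero_of_abs_lt_dvd hd (he 0)
    have h2 : flat Q n (fun j => e j.succ) = 0 := by
      rw [h1, zero_add] at h0
      exact (mul_eq_zero.mp h0).resolve_left hQ.ne'
    intro i
    refine Fin.cases h1 (fun j => ih _ (fun j => he j.succ) h2 j) i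

theorem flat_bound {B Q : ℤ} (hB : 0 < B) (hQ : B ≤ Q) : ∀ (n : ℕ) (v : Fin n → ℤ),
    (∀ i, 0 ≤ v i ∧ v i < B) → 0 ≤ flat Q n v ∧ flat Q n v < Q ^ n := by
  intro n
  induction n with
  | zero => intro v _; simp [flat]
  | succ n ih =>
    intro v hv
    obtain ⟨h1, h2⟩ := hv 0
    obtain ⟨h3, h4⟩ := ih (fun j => v j.succ) (fun j => hv j.succ)
    have hQ0 : 0 < Q := lt_of_lt_of_le hB hQ
    simp only [flat]
    refine ⟨by positivity, ?_⟩
    have : flat Q n (fun j => v j.succ) ≤ Q ^ n - 1 := by linarith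
    have := mul_le_mul_of_nonneg_left this hQ0.le
    calc v 0 + Q * flat Q n (fun j => v j.succ) ≤ (Q - 1) + Q * (Q ^ n - 1) := by linarith
      _ < Q ^ (n + 1) := by rw [pow_succ]; nlinarith

theorem good_flat {ι : Type*} {n : ℕ} {B : ℤ} (hB : 0 < B) {F : ι → Fin n → ℤ}
    (hF : ∀ x i, 0 ≤ F x i ∧ F x i < B) (h : Good F) :
    Good (fun x => flat (4 * B) n (F x)) := by
  intro x y z w hx
  have h1 : flat (4 * B) n (fun i => F x i + 3 * F y i - 2 * F z i - 2 * F w i) = 0 := by
    rw [← flat_comb]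
    simp only [nsmul_eq_mul, Nat.cast_ofNat] at hx
    linarith
  have h2 := flat_zero (by positivity : (0:ℤ) < 4 * B) n _ (by
    intro i
    have hx := hF x i; have hy := hF y i; have hz := hF z i; have hw := hF w i
    rw [abs_lt]
    constructor <;> linarith [hx.1, hx.2, hy.1, hy.2, hz.1, hz.2, hw.1, hw.2]) h1
  apply h
  funext i
  have := h2 i
  simp only [Pi.add_apply, Pi.smul_apply]
  simp only [nsmul_eq_mul, Nat.cast_ofNat]
  linarith

theorem Good.injective {ι M : Type*} [AddCommGroup M] {f : ι → M} (h : Good f) :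
    Function.Injective f := by
  intro x y hxy
  exact (h x y x y (by rw [hxy]; abel)).1

/-- An alphabet `Fin s` with digits `D`, modulus `q` and role potentials `b, c`. -/
structure Alphabet (s : ℕ) where
  q : ℤ
  D : Fin s → ℤ
  b : Fin s → ℤ
  c : Fin s → ℤ
  K : ℕ
  q_pos : 0 < q
  D_bound : ∀ i, 0 ≤ D i ∧ D i < q
  b_bound : ∀ i, |b i| ≤ K
  c_bound : ∀ i, |c i| ≤ K
  pot : ∀ i j k l : Fin s, q ∣ D i + 3 * D j - 2 * D k - 2 * D l →
    (i = j ∧ i = k ∧ i = l) ∨ 0 < b j - b i + c k + c l - 2 * c i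

variable {s : ℕ} (P : Alphabet s)

/-- Words of length `n` with given potential sums. -/
abbrev Alphabet.T (n : ℕ) (β γ : ℤ) : Type :=
  {x : Fin n → Fin s // ∑ i, P.b (x i) = β ∧ ∑ i, P.c (x i) = γ}

theorem Alphabet.goodMod (n : ℕ) (β γ : ℤ) :
    GoodMod P.q (fun (x : P.T n β γ) i => P.D (x.1 i)) := by
  intro x y z w h
  have hnn : ∀ i ∈ (Finset.univ : Finset (Fin n)),
      0 ≤ P.b (y.1 i) - P.b (x.1 i) + P.c (z.1 i) + P.c (w.1 i) - 2 * P.c (x.1 i) := by
    intro i _
    rcases P.pot _ _ _ _ (h i) with ⟨h1, h2, h3⟩ | h1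
    · rw [← h1, ← h2, ← h3]; linarith
    · exact h1.le
  have hsum : ∑ i, (P.b (y.1 i) - P.b (x.1 i) + P.c (z.1 i) + P.c (w.1 i)
      - 2 * P.c (x.1 i)) = 0 := by
    rw [Finset.sum_sub_distrib, Finset.sum_add_distrib, Finset.sum_add_distrib,
      Finset.sum_sub_distrib, ← Finset.mul_sum, x.2.1, y.2.1, z.2.2, w.2.2, x.2.2]
    ring
  have hz := (Finset.sum_eq_zero_iff_of_nonneg hnn).mp hsum
  have hall : ∀ i, x.1 i = y.1 i ∧ x.1 i = z.1 i ∧ x.1 i = w.1 i := by
    intro i
    rcases P.pot _ _ _ _ (h i) with h1 | h1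
    · exact h1
    · exact absurd (hz i (Finset.mem_univ i)) (by linarith)
  refine ⟨?_, ?_, ?_⟩ <;> apply Subtype.ext <;> funext i
  · exact (hall i).1
  · exact (hall i).2.1
  · exact (hall i).2.2

theorem Alphabet.exists_large (n : ℕ) : ∃ β γ : ℤ,
    (s : ℝ) ^ n / ((2 * (P.K * n) + 1 : ℕ) : ℝ) ^ 2 ≤ Fintype.card (P.T n β γ) := by
  classical
  set M : ℤ := P.K * n
  have hM : 0 ≤ M := by positivity
  have hmem : ∀ (g : Fin s → ℤ) (_ : ∀ i, |g i| ≤ P.K) (x : Fin n → Fin s),
      ∑ i, g (x i) ∈ Finset.Icc (-M) M := by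
    intro g hg x
    rw [Finset.mem_Icc, ← abs_le]
    calc |∑ i, g (x i)| ≤ ∑ i, |g (x i)| := Finset.abs_sum_le_sum_abs _ _
      _ ≤ ∑ _i : Fin n, (P.K : ℤ) := Finset.sum_le_sum (fun i _ => hg _)
      _ = M := by simp [M, mul_comm]
  have := Finset.exists_le_card_fiber_of_nsmul_le_card_of_maps_to (M := ℝ)
    (s := (Finset.univ : Finset (Fin n → Fin s)))
    (t := (Finset.Icc (-M) M) ×ˢ (Finset.Icc (-M) M))
    (f := fun x => (∑ i, P.b (x i), ∑ i, P.c (x i)))
    (b := (s : ℝ) ^ n / ((2 * (P.K * n) + 1 : ℕ) : ℝ) ^ 2)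
    (by
      intro x _
      rw [Finset.mem_product]
      exact ⟨hmem P.b P.b_bound x, hmem P.c P.c_bound x⟩)
    ⟨(0, 0), by simp [hM]⟩
    (by
      rw [Finset.card_product, Int.card_Icc]
      have h1 : (M + 1 - -M).toNat = 2 * (P.K * n) + 1 := by
        have : M + 1 - -M = ((2 * (P.K * n) + 1 : ℕ) : ℤ) := by push_cast; simp only [M]; ring
        rw [this, Int.toNat_natCast]
      rw [h1, nsmul_eq_mul, Finset.card_univ, Fintype.card_fun, Fintype.card_fin, Fintype.card_fin]
      push_cast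
      have h2 : (0:ℝ) < (2 * ((P.K:ℝ) * n) + 1) := by positivity
      rw [← pow_two]
      field_simp
      exact le_refl _)
  obtain ⟨⟨β, γ⟩, -, h⟩ := this
  refine ⟨β, γ, h.trans ?_⟩
  rw [Nat.cast_le]
  rw [Fintype.card_subtype]
  apply le_of_eq
  congr 1
  ext x
  simp

end Pool.Agent.H247R2.RZ
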