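import Pool.Agent.H247R2.RZ.Main

namespace Pool.Agent.H247R2.RZ

def D83 : Fin 11 → ℤ := ![0, 1, 3, 7, 17, 46, 52, 53, 61, 77, 79]
def b83 : Fin 11 → ℤ := ![-12, 33, -8, -10, 1, -13, -10, -17, 37, 12, -13]
def c83 : Fin 11 → ℤ := ![-10, -14, 30, -14, 21, -13, -11, -11, -10, -5, 37]

/-- The alphabet of eleven digits modulo `83`. -/
def P83 : Alphabet 11 where
  q := 83
  D := D83
  b := b83
  c := c83
  K := 40
  q_pos := by norm_num
  D_bound := by decide +kernel
  b_bound := by decide +kernel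
  c_bound := by decide +kernel
  pot := by decide +kernel

end Pool.Agent.H247R2.RZ
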