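import Pool.Agent.H247R2.RZ.Base

/-!
# From an alphabet to sets of integers
-/

namespace Pool.Agent.H247R2.RZ

open Finset

variable {s : ℕ} (P : Alphabet s)

theorem exists_n {a S : ℝ} (ha : 0 < a) (hS : a < S) (K : ℕ) :
    ∃ n : ℕ, 1 ≤ n ∧ a ^ n ≤ S ^ n / ((2 * (K * n) + 1 : ℕ) : ℝ) ^ 2 := by
  have hr : 1 < S / a := by rwa [one_lt_div ha]
  have hlim := tendsto_pow_const_div_const_pow_of_one_lt 2 hr
  have hpos : (0 : ℝ) < 1 / (2 * (K : ℝ) + 1) ^ 2 := by positivity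
  have hev := (hlim.eventually (gt_mem_nhds hpos)).and (Filter.eventually_ge_atTop 1)
  obtain ⟨n, h1, h2⟩ := hev.exists
  refine ⟨n, h2, ?_⟩
  have hS0 : 0 < S := ha.trans hS
  have hn : (1 : ℝ) ≤ n := by exact_mod_cast h2
  have h3 : ((2 * (K * n) + 1 : ℕ) : ℝ) ≤ (2 * (K : ℝ) + 1) * n := by
    push_cast
    nlinarith [Nat.cast_nonneg (α := ℝ) K]
  have h4 : ((2 * (K * n) + 1 : ℕ) : ℝ) ^ 2 ≤ (2 * (K : ℝ) + 1) ^ 2 * (n : ℝ) ^ 2 := by
    rw [← mul_pow]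
    exact pow_le_pow_left₀ (by positivity) h3 2
  rw [le_div_iff₀ (by positivity)]
  rw [div_pow, div_div_eq_mul_div, div_lt_div_iff₀ (by positivity) (by positivity)] at h1
  calc a ^ n * ((2 * (K * n) + 1 : ℕ) : ℝ) ^ 2
      ≤ a ^ n * ((2 * (K : ℝ) + 1) ^ 2 * (n : ℝ) ^ 2) := by gcongr
    _ = (n : ℝ) ^ 2 * a ^ n * (2 * (K : ℝ) + 1) ^ 2 := by ring
    _ ≤ S ^ n := by linarith

/-- The set of integers built from all `t`-tuples of words. -/
noncomputable def code (n : ℕ) (β γ : ℤ) (t : ℕ) (X : Fin t → P.T n β γ) : ℤ :=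
  flat (4 * P.q ^ t) n (dig P.q (fun (x : P.T n β γ) i => P.D (x.1 i)) t X)

theorem code_good (n : ℕ) (β γ : ℤ) (t : ℕ) : Good (code P n β γ t) :=
  good_flat (pow_pos P.q_pos t)
    (fun X i => dig_bound P.q_pos (fun x i => P.D_bound (x.1 i)) t X i)
    (good_dig P.q_pos.ne' (P.goodMod n β γ) t)

theorem code_bound (n : ℕ) (β γ : ℤ) (t : ℕ) (X : Fin t → P.T n β γ) :
    0 ≤ code P n β γ t X ∧ code P n β γ t X < (4 * P.q ^ t) ^ n := by
  have hp := pow_pos P.q_pos t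
  exact flat_bound hp (by linarith) n _
    (fun i => dig_bound P.q_pos (fun x i => P.D_bound (x.1 i)) t X i)

/-- `A` has only the trivial solutions `x = y = z = w` of `x + 3y = 2z + 2w`. -/
def OnlyTrivial (A : Finset ℕ) : Prop :=
  ∀ x ∈ A, ∀ y ∈ A, ∀ z ∈ A, ∀ w ∈ A, x + 3 * y = 2 * z + 2 * w → x = y ∧ x = z ∧ x = w

theorem exists_set (n : ℕ) (β γ : ℤ) (t N : ℕ) (hN : (4 * P.q ^ t) ^ n ≤ (N : ℤ)) :
    ∃ A ⊆ Finset.Icc 1 N, OnlyTrivial A ∧ A.card = Fintype.card (P.T n β γ) ^ t := by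
  classical
  have hinj : Function.Injective (fun X : Fin t → P.T n β γ => (code P n β γ t X + 1).toNat) := by
    intro X Y h
    have hX := code_bound P n β γ t X
    have hY := code_bound P n β γ t Y
    have h' : (code P n β γ t X + 1).toNat = (code P n β γ t Y + 1).toNat := h
    have : code P n β γ t X = code P n β γ t Y := by omega
    exact (code_good P n β γ t).injective this
  refine ⟨Finset.univ.image (fun X : Fin t → P.T n β γ => (code P n β γ t X + 1).toNat),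
    ?_, ?_, ?_⟩
  · intro a ha
    rw [Finset.mem_image] at ha
    obtain ⟨X, -, rfl⟩ := ha
    have hX := code_bound P n β γ t X
    rw [Finset.mem_Icc]
    omega
  · intro x hx y hy z hz w hw h
    rw [Finset.mem_image] at hx hy hz hw
    obtain ⟨X, -, rfl⟩ := hx
    obtain ⟨Y, -, rfl⟩ := hy
    obtain ⟨Z, -, rfl⟩ := hz
    obtain ⟨W, -, rfl⟩ := hw
    have hX := code_bound P n β γ t X
    have hY := code_bound P n β γ t Y
    have hZ := code_bound P n β γ t Z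
    have hW := code_bound P n β γ t W
    have h1 : code P n β γ t X + 3 • code P n β γ t Y
        = 2 • code P n β γ t Z + 2 • code P n β γ t W := by
      simp only [nsmul_eq_mul, Nat.cast_ofNat]
      omega
    obtain ⟨rfl, rfl, rfl⟩ := code_good P n β γ t X Y Z W h1
    exact ⟨rfl, rfl, rfl⟩
  · rw [Finset.card_image_of_injective _ hinj, Finset.card_univ, Fintype.card_fun, Fintype.card_fin]

theorem lower_bound (hq2 : 2 ≤ P.q) {α : ℝ} (h0 : 0 ≤ α) (hα : (P.q : ℝ) ^ α < s) :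
    ∃ c : ℝ, 0 < c ∧ ∀ N : ℕ, 1 ≤ N → ∃ A ⊆ Finset.Icc 1 N, OnlyTrivial A ∧
      c * (N : ℝ) ^ α ≤ A.card := by
  have hq : (0 : ℝ) < P.q := by exact_mod_cast P.q_pos
  have hq1 : (1 : ℝ) ≤ P.q := by exact_mod_cast (by linarith : (1 : ℤ) ≤ P.q)
  set a : ℝ := (P.q : ℝ) ^ α with ha_def
  have ha1 : 1 ≤ a := Real.one_le_rpow hq1 h0
  have ha0 : 0 < a := by linarith
  obtain ⟨n, hn1, hn⟩ := exists_n ha0 hα P.K
  obtain ⟨β, γ, hT⟩ := P.exists_large n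
  have hTa : a ^ n ≤ Fintype.card (P.T n β γ) := hn.trans hT
  have h41 : (1 : ℝ) ≤ (4 : ℝ) ^ α := Real.one_le_rpow (by norm_num) h0
  have h40 : (0 : ℝ) < (4 : ℝ) ^ α := by linarith
  have hc0 : (0 : ℝ) < ((4 : ℝ) ^ α * a) ^ n := by positivity
  have hc1 : (1 : ℝ) ≤ ((4 : ℝ) ^ α * a) ^ n := one_le_pow₀ (one_le_mul_of_one_le_of_one_le h41 ha1)
  refine ⟨1 / ((4 : ℝ) ^ α * a) ^ n, by positivity, ?_⟩
  intro N hN
  have hN0 : (0 : ℝ) ≤ N := Nat.cast_nonneg N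
  -- existence of a large `t`
  have hex : ∃ t : ℕ, (N : ℤ) < (4 * P.q ^ t) ^ n := by
    refine ⟨N, ?_⟩
    have h1 : (N : ℤ) < 2 ^ N := by exact_mod_cast Nat.lt_two_pow_self
    have h2 : (2 : ℤ) ^ N ≤ P.q ^ N := pow_le_pow_left₀ (by norm_num) hq2 N
    have h3 : P.q ^ N ≤ 4 * P.q ^ N := by
      have := pow_pos P.q_pos N
      linarith
    have h4 : (1 : ℤ) ≤ 4 * P.q ^ N := by
      have := pow_pos P.q_pos N
      linarith
    calc (N : ℤ) < 4 * P.q ^ N := by linarith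
      _ ≤ (4 * P.q ^ N) ^ n := le_self_pow₀ h4 (by omega)
  classical
  obtain ⟨t, ht, hmin⟩ : ∃ t : ℕ, (N : ℤ) < (4 * P.q ^ t) ^ n ∧
      ∀ m < t, ¬ (N : ℤ) < (4 * P.q ^ m) ^ n :=
    ⟨Nat.find hex, Nat.find_spec hex, fun m hm => Nat.find_min hex hm⟩
  have key : ∀ u : ℕ, (N : ℤ) < (4 * P.q ^ u) ^ n →
      (N : ℝ) ^ α ≤ ((4 : ℝ) ^ α * a ^ u) ^ n := by
    intro u hu
    have h1 : (N : ℝ) ≤ ((4 : ℝ) * (P.q : ℝ) ^ u) ^ n := by
      have : ((N : ℤ) : ℝ) < (((4 * P.q ^ u) ^ n : ℤ) : ℝ) := by exact_mod_cast hu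
      push_cast at this
      exact this.le
    calc (N : ℝ) ^ α ≤ (((4 : ℝ) * (P.q : ℝ) ^ u) ^ n) ^ α := Real.rpow_le_rpow hN0 h1 h0
      _ = (((4 : ℝ) * (P.q : ℝ) ^ u) ^ α) ^ n := (Real.rpow_pow_comm (by positivity) α n).symm
      _ = ((4 : ℝ) ^ α * ((P.q : ℝ) ^ u) ^ α) ^ n := by
          rw [Real.mul_rpow (by norm_num) (by positivity)]
      _ = ((4 : ℝ) ^ α * a ^ u) ^ n := by
          rw [ha_def, Real.rpow_pow_comm hq.le α u]
  rcases Nat.eq_zero_or_pos t with rfl | htpos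
  · refine ⟨{1}, by simpa using hN, ?_, ?_⟩
    · intro x hx y hy z hz w hw _
      rw [Finset.mem_singleton] at hx hy hz hw
      subst hx hy hz hw
      exact ⟨rfl, rfl, rfl⟩
    · have h1 := key 0 ht
      rw [pow_zero, mul_one] at h1
      have h2 : ((4 : ℝ) ^ α) ^ n ≤ ((4 : ℝ) ^ α * a) ^ n :=
        pow_le_pow_left₀ h40.le (le_mul_of_one_le_right h40.le ha1) n
      rw [Finset.card_singleton, Nat.cast_one, one_div, inv_mul_le_iff₀ hc0, mul_one]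
      exact h1.trans h2
  · obtain ⟨u, rfl⟩ : ∃ u, t = u + 1 := ⟨t - 1, by omega⟩
    have hu := not_lt.mp (hmin u (by omega))
    obtain ⟨A, hA1, hA2, hA3⟩ := exists_set P n β γ u N hu
    refine ⟨A, hA1, hA2, ?_⟩
    have h1 := key (u + 1) ht
    rw [hA3, one_div, inv_mul_le_iff₀ hc0]
    push_cast
    calc (N : ℝ) ^ α ≤ ((4 : ℝ) ^ α * a ^ (u + 1)) ^ n := h1
      _ = ((4 : ℝ) ^ α * a) ^ n * (a ^ n) ^ u := by
          rw [pow_succ, ← pow_mul, mul_comm n u, pow_mul, ← mul_pow]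
          ring
      _ ≤ ((4 : ℝ) ^ α * a) ^ n * (Fintype.card (P.T n β γ) : ℝ) ^ u := by
          gcongr

end Pool.Agent.H247R2.RZ
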